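import Pool.Agent.helper17.EXT.Spec

/-!
# Project EXT (MP_561ff4_al), row `ft:RKS`: rank one
-/

set_option autoImplicit false

open Finset

namespace Pool.Agent.EXT

open Pool.Agent.EXC

variable {K : Type} [Field K]

theorem RKS_add (a : Lm C6 K) (t : K) (v w : Lm C6 K) : xe C6 a t (v + w) = xe C6 a t v + xe C6 a t w := by
  unfold xe
  rw [br_add_right, fm_add_right, mul_add, add_smul, smul_add]
  abel

theorem RKS_smul (a : Lm C6 K) (t c : K) (v : Lm C6 K) : xe C6 a t (c • v) = c • xe C6 a t v := by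
  unfold xe
  rw [br_smul_right, fm_smul_right, smul_add, smul_add, smul_smul, smul_smul, smul_smul]
  congr 2
  · rw [mul_comm]
  · ring

theorem RKS_sub (a : Lm C6 K) (t : K) (v w : Lm C6 K) : xe C6 a t (v - w) = xe C6 a t v - xe C6 a t w := by
  have h : v - w = v + (-1 : K) • w := by
    rw [neg_one_smul]
    abel
  rw [h, RKS_add, RKS_smul, neg_one_smul]
  abel

theorem RKS_ex {α : Fin 6 → ℤ} (hα : ip C6 α α = 2) (t : K) : ∃ g : Lm C6 K ≃ₗ[K] Lm C6 K, IsX C6 (E C6 α) t g := by
  have hNB := (f_NBR 6 C6 1 _ _ f_DE6.2).1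
  obtain ⟨-, hE, hEx, -⟩ := f_EXF 6 C6 K hNB
  obtain ⟨z, -, hz⟩ := (hEx _ (hE α hα)).2.2.2.2.1 t
  exact ⟨z, hz⟩

theorem RKS_exS (τ : K ≃+* K) {γ : Fin 6 → ℤ} (hγ : ip C6 γ γ = 2) (hγ' : ip C6 (pv γ) (pv γ) = 2) (t : K) :
    ∃ g : Lm C6 K ≃ₗ[K] Lm C6 K, IsS τ γ t g := by
  obtain ⟨g, hg⟩ := RKS_ex hγ t
  obtain ⟨g', hg'⟩ := RKS_ex hγ' ((sn γ : K) * τ t)
  refine ⟨g * g', fun v => ?_⟩
  have e : (g * g') v = g (g' v) := rfl
  rw [e, hg, hg']

/-- the case of a long simple root -/
theorem RKS_long (τ : K ≃+* K) (hadd : ∀ v w : Fin 6 → ℤ, pv (v + w) = pv v + pv w) (hneg : ∀ v : Fin 6 → ℤ, pv (-v) = -pv v)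
    {α β : Fin 6 → ℤ} (hα : LR α) (hβ : LR β) {s t : K} (hs : τ s = s) (htt : τ t = t) :
    ∃ β', LR β' ∧ ∃ c : K, τ c = c ∧ c ≠ 0 ∧ ∃ s' : K, τ s' = s' ∧
      xe C6 (E C6 (-α)) t (xe C6 (E C6 α) s (E C6 β)) = c • (xe C6 (E C6 α) s' (E C6 β') : Lm C6 K) := by
  obtain ⟨hα, hπα⟩ := hα
  obtain ⟨hβ, hπβ⟩ := hβ
  have hACT := f_ACT
  have hnα : ip C6 (-α) (-α) = 2 := neg_root C6 hα
  have hπn : pv (-α) = -α := by rw [hneg, hπα]
  have hb := ip_abs_le hα hβ
  have hm : ip C6 α β = -2 ∨ ip C6 α β = -1 ∨ ip C6 α β = 0 ∨ ip C6 α β = 1 ∨ ip C6 α β = 2 := by omega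
  have hA1 := fun u : K => (hACT 6 C6 K α u hα).1
  have hA2 := fun u : K => (hACT 6 C6 K α u hα).2.1
  have hA3 := fun u : K => (hACT 6 C6 K α u hα).2.2.1
  have hN1 := fun u : K => (hACT 6 C6 K (-α) u hnα).1
  have hN2 := fun u : K => (hACT 6 C6 K (-α) u hnα).2.1
  have hN3 := fun u : K => (hACT 6 C6 K (-α) u hnα).2.2.1
  have hN5 := fun u : K => (hACT 6 C6 K (-α) u hnα).2.2.2.2
  have hN3' : ∀ u : K, xe C6 (E C6 (-α)) u (E C6 α) = (E C6 α + u • ht C6 α + u ^ 2 • E C6 (-α) : Lm C6 K) := by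
    intro u
    have h := hN3 u
    rw [neg_neg, ht_neg, smul_neg, sub_neg_eq_add] at h
    exact h
  have hz : ∀ γ, ip C6 γ γ = 2 → 0 ≤ ip C6 α γ → xe C6 (E C6 α) 0 (E C6 γ) = (E C6 γ : Lm C6 K) := hA1 0
  have hτ0 : τ (0 : K) = 0 := map_zero τ
  have hτ1 : τ (1 : K) = 1 := map_one τ
  rcases hm with hm | hm | hm | hm | hm
  · -- `β = -α`
    have hβα : β = -α := eq_neg_of_ip_eq_neg_two hα hβ hm
    subst hβα
    have h1 : xe C6 (E C6 (-α)) t (xe C6 (E C6 α) s (E C6 (-α))) =
        ((1 - s * t) ^ 2 • E C6 (-α) - (s * (1 - s * t)) • ht C6 α + s ^ 2 • E C6 α : Lm C6 K) := by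
      rw [hA3 s, RKS_add, RKS_sub, RKS_smul, RKS_smul, hN3' t, hN5 t α, hN1 t (-α) hnα (by rw [hnα]; norm_num)]
      have h2 : ((ip C6 (-α) α : ℤ) : K) = -2 := by
        rw [ip_neg_left, hα]
        norm_num
      rw [h2]
      module
    by_cases hd : 1 - s * t = 0
    · have hs0 : s ≠ 0 := by
        rintro rfl
        simp at hd
      refine ⟨α, ⟨hα, hπα⟩, s ^ 2, by rw [map_pow, hs], pow_ne_zero 2 hs0, 0, hτ0, ?_⟩
      rw [h1, hz α hα (by rw [hα]; norm_num), hd]
      simp
    · have hτd : τ (1 - s * t) = 1 - s * t := by rw [map_sub, map_mul, hs, htt, hτ1]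
      refine ⟨-α, ⟨hnα, hπn⟩, (1 - s * t) ^ 2, by rw [map_pow, hτd], pow_ne_zero 2 hd, s / (1 - s * t),
        by rw [map_div₀, hτd, hs], ?_⟩
      rw [h1, hA3]
      have h2 : (1 - s * t) ^ 2 * (s / (1 - s * t)) = s * (1 - s * t) := by
        field_simp
      have h3 : (1 - s * t) ^ 2 * (s / (1 - s * t)) ^ 2 = s ^ 2 := by
        field_simp
      rw [smul_add, smul_sub, smul_smul, smul_smul, h2, h3]
  · -- `α + β` is a root
    have hab : ip C6 (α + β) (α + β) = 2 := (add_root_iff hα hβ).2 hm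
    have h1 : ip C6 (-α) (α + β) = -1 := by
      rw [ip_add_right, ip_neg_left, ip_neg_left, hα, hm]
      norm_num
    have h2 : ip C6 (-α) β = 1 := by
      rw [ip_neg_left, hm]
      norm_num
    have h3 : -α + (α + β) = β := by abel
    have h4 : xe C6 (E C6 (-α)) t (xe C6 (E C6 α) s (E C6 β)) =
        ((1 + s * (sg C6 α β : K) * (t * (sg C6 (-α) (α + β) : K))) • E C6 β + (s * (sg C6 α β : K)) • E C6 (α + β) : Lm C6 K) := by
      rw [hA2 s β hβ hm, RKS_add, RKS_smul, hN1 t β hβ (by rw [h2]; norm_num), hN2 t (α + β) hab h1, h3]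
      module
    by_cases hd : 1 + s * (sg C6 α β : K) * (t * (sg C6 (-α) (α + β) : K)) = 0
    · have hs0 : s * (sg C6 α β : K) ≠ 0 := by
        intro h
        rw [h] at hd
        simp at hd
      refine ⟨α + β, ⟨hab, by rw [hadd, hπα, hπβ]⟩, s * (sg C6 α β : K), by rw [map_mul, hs, map_intCast], hs0, 0, hτ0, ?_⟩
      have h5 : ip C6 α (α + β) = 1 := by
        rw [ip_add_right, hα, hm]
        norm_num
      rw [h4, hd, hz (α + β) hab (by rw [h5]; norm_num), zero_smul, zero_add]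
    · have hτd : τ (1 + s * (sg C6 α β : K) * (t * (sg C6 (-α) (α + β) : K))) =
          1 + s * (sg C6 α β : K) * (t * (sg C6 (-α) (α + β) : K)) := by
        rw [map_add, map_mul, map_mul, map_mul, map_intCast, map_intCast, hs, htt, hτ1]
      refine ⟨β, ⟨hβ, hπβ⟩, _, hτd, hd, s / (1 + s * (sg C6 α β : K) * (t * (sg C6 (-α) (α + β) : K))),
        by rw [map_div₀, hτd, hs], ?_⟩
      rw [h4, hA2 _ β hβ hm, smul_add, smul_smul]
      congr 2
      rw [← mul_assoc, mul_div_cancel₀ _ hd]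
  · -- orthogonal
    have h2 : ip C6 (-α) β = 0 := by
      rw [ip_neg_left, hm]
      norm_num
    refine ⟨β, ⟨hβ, hπβ⟩, 1, hτ1, one_ne_zero, 0, hτ0, ?_⟩
    rw [hA1 s β hβ (by rw [hm]), hN1 t β hβ (by rw [h2]), hz β hβ (by rw [hm]), one_smul]
  · -- `β - α` is a root
    have h2 : ip C6 (-α) β = -1 := by
      rw [ip_neg_left, hm]
    have h0 : xe C6 (E C6 α) s (E C6 β) = (E C6 β : Lm C6 K) := hA1 s β hβ (by rw [hm]; norm_num)
    by_cases ht0 : t = 0
    · refine ⟨β, ⟨hβ, hπβ⟩, 1, hτ1, one_ne_zero, 0, hτ0, ?_⟩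
      rw [h0, hN2 t β hβ h2, hz β hβ (by rw [hm]; norm_num), one_smul, ht0, zero_mul, zero_smul, add_zero]
    · have hba : ip C6 (-α + β) (-α + β) = 2 := (add_root_iff hnα hβ).2 h2
      have h3 : ip C6 α (-α + β) = -1 := by
        rw [ip_add_right, ip_neg_right, hα, hm]
        norm_num
      have h4 : α + (-α + β) = β := by abel
      have hc : t * (sg C6 (-α) β : K) ≠ 0 := mul_ne_zero ht0 (sg_ne_zero C6 _ _)
      have hc' : t * (sg C6 (-α) β : K) * (sg C6 α (-α + β) : K) ≠ 0 := mul_ne_zero hc (sg_ne_zero C6 _ _)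
      refine ⟨-α + β, ⟨hba, by rw [hadd, hπn, hπβ]⟩, t * (sg C6 (-α) β : K), by rw [map_mul, map_intCast, htt], hc,
        (t * (sg C6 (-α) β : K) * (sg C6 α (-α + β) : K))⁻¹, by rw [map_inv₀, map_mul, map_mul, map_intCast, map_intCast, htt], ?_⟩
      rw [h0, hN2 t β hβ h2, hA2 _ (-α + β) hba h3, h4, smul_add, smul_smul]
      have h5 : t * (sg C6 (-α) β : K) * ((t * (sg C6 (-α) β : K) * (sg C6 α (-α + β) : K))⁻¹ * (sg C6 α (-α + β) : K)) = 1 := by
        rw [mul_comm ((t * (sg C6 (-α) β : K) * (sg C6 α (-α + β) : K))⁻¹), ← mul_assoc]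
        exact mul_inv_cancel₀ hc'
      rw [h5, one_smul]
      abel
  · -- `β = α`
    have hβα : α = β := eq_of_ip_eq_two hα hβ hm
    subst hβα
    have h0 : xe C6 (E C6 α) s (E C6 α) = (E C6 α : Lm C6 K) := hA1 s α hα (by rw [hm]; norm_num)
    by_cases ht0 : t = 0
    · refine ⟨α, ⟨hα, hπα⟩, 1, hτ1, one_ne_zero, 0, hτ0, ?_⟩
      rw [h0, hN3' t, hz α hα (by rw [hm]; norm_num), one_smul, ht0]
      simp
    · refine ⟨-α, ⟨hnα, hπn⟩, t ^ 2, by rw [map_pow, htt], pow_ne_zero 2 ht0, -t⁻¹, by rw [map_neg, map_inv₀, htt], ?_⟩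
      have h2 : t ^ 2 * -t⁻¹ = -t := by
        field_simp
      have h3 : t ^ 2 * (-t⁻¹) ^ 2 = 1 := by
        field_simp
      rw [h0, hN3' t, hA3, smul_add, smul_sub, smul_smul, smul_smul, h2, h3, one_smul, neg_smul]
      abel

theorem RKS (hRTF : RTF_stmt) (hACS : ACS_stmt) : RKS_stmt := by
  intro K _ τ hτ i β s t x y hβ hx hy
  obtain ⟨r1, r2, r3, r4, r5, r6, r7, r8, r9, r10, r11, r12, r13, -, -⟩ := hRTF
  have hi : ip C6 (sr i) (sr i) = 2 := ip_sr_self C6 i
  have hi' : ip C6 (sr (pn i)) (sr (pn i)) = 2 := ip_sr_self C6 (pn i)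
  by_cases hpi : pn i = i
  · have hx1 : τ s = s ∧ IsX C6 (E C6 (sr i)) s x := by
      rcases hx with ⟨-, h1, h2⟩ | ⟨h, -⟩
      · exact ⟨h1, h2⟩
      · exact absurd hpi h
    have hy1 : τ t = t ∧ IsX C6 (E C6 (-sr i)) t y := by
      rcases hy with ⟨-, h1, h2⟩ | ⟨h, -⟩
      · exact ⟨h1, h2⟩
      · exact absurd hpi h
    obtain ⟨hs, hx2⟩ := hx1
    obtain ⟨ht, hy2⟩ := hy1
    have hL : LR (sr i) := ⟨hi, by rw [r5, hpi]⟩
    obtain ⟨β', hβ', c, hc, hc0, s', hs', e⟩ := RKS_long τ r3 r4 hL hβ hs ht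
    obtain ⟨x', hx'⟩ := RKS_ex hi s'
    refine ⟨β', hβ', c, hc, hc0, s', x', Or.inl ⟨hpi, hs', hx'⟩, ?_⟩
    rw [hx2, hy2, hx', e]
  · have hx1 : IsS τ (sr i) s x := by
      rcases hx with ⟨h, -⟩ | ⟨-, h⟩
      · exact absurd h hpi
      · exact h
    have hy1 : IsS τ (-sr i) t y := by
      rcases hy with ⟨h, -⟩ | ⟨-, h⟩
      · exact absurd h hpi
      · exact h
    have hS : SR (sr i) := by
      refine ⟨hi, ?_⟩
      rw [r5]
      intro h
      have h1 := congrFun h i
      simp only [sr, Pi.single_apply] at h1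
      rw [if_neg (fun e => hpi e.symm)] at h1
      simp at h1
    have hSn : SR (-sr i) := by
      refine ⟨neg_root C6 hi, ?_⟩
      rw [r4]
      intro h
      exact hS.2 (neg_injective h)
    -- abbreviations
    obtain ⟨α, hαdef⟩ : ∃ α : Fin 6 → ℤ, α = sr i := ⟨_, rfl⟩
    obtain ⟨α', hα'def⟩ : ∃ α' : Fin 6 → ℤ, α' = sr (pn i) := ⟨_, rfl⟩
    have hπα : pv α = α' := by rw [hαdef, hα'def, r5]
    have hπnα : pv (-α) = -α' := by rw [r4, hπα]
    have hsnα : sn α = 1 := by rw [hαdef, r10]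
    have hsnn : sn (-α) = 1 := by rw [r9, hsnα]
    rw [← hαdef] at hi hx1 hy1 hS hSn
    rw [← hα'def] at hi'
    have hort : ip C6 α α' = 0 := by
      have := r13 _ hS
      rw [hπα] at this
      exact this
    have hort' : ip C6 α' α = 0 := by rw [ip_comm]; exact hort
    have hnα : ip C6 (-α) (-α) = 2 := neg_root C6 hi
    have hnα' : ip C6 (-α') (-α') = 2 := neg_root C6 hi'
    obtain ⟨a1, a2, a3, a4⟩ := hACS K τ hτ α β hS hβ
    obtain ⟨b1, b2, b3, b4⟩ := hACS K τ hτ (-α) β hSn hβ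
    obtain ⟨a5, a6⟩ := a4 s x hx1
    obtain ⟨b5, b6⟩ := b4 t y hy1
    rw [hπα] at a1 a6
    rw [hπnα] at b1 b6
    rw [hsnα] at a6
    rw [hsnn] at b6
    rw [ip_neg_left] at b5 b6
    -- signs
    have sA := sg_sq (F := K) C6 α β
    have sA' := sg_sq (F := K) C6 α' β
    have sE := sg_sq (F := K) C6 α α'
    obtain ⟨a, ha⟩ : ∃ a : K, a = (sg C6 α β : K) := ⟨_, rfl⟩
    obtain ⟨a', ha'⟩ : ∃ a' : K, a' = (sg C6 α' β : K) := ⟨_, rfl⟩
    obtain ⟨e, he⟩ : ∃ e : K, e = (sg C6 α α' : K) := ⟨_, rfl⟩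
    rw [← ha] at sA
    rw [← ha'] at sA'
    rw [← he] at sE
    have ta : τ a = a := by rw [ha, map_intCast]
    have ta' : τ a' = a' := by rw [ha', map_intCast]
    have te : τ e = e := by rw [he, map_intCast]
    have he' : (sg C6 α' α : K) = e := by
      rw [sg_comm_even C6 α α' (by rw [hort]; exact Even.zero), he]
    have hself : (sg C6 α α : K) = -1 := by rw [sg_self C6 hi]; norm_num
    have hself' : (sg C6 α' α' : K) = -1 := by rw [sg_self C6 hi']; norm_num
    have ha0 : a ≠ 0 := by rw [ha]; exact sg_ne_zero C6 _ _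
    have ha'0 : a' ≠ 0 := by rw [ha']; exact sg_ne_zero C6 _ _
    have he0 : e ≠ 0 := by rw [he]; exact sg_ne_zero C6 _ _
    have hm : ip C6 α β = -1 ∨ ip C6 α β = 0 ∨ ip C6 α β = 1 := by omega
    have hxs : ∀ v : Lm C6 K, x v = xe C6 (E C6 α) s (xe C6 (E C6 α') (τ s) v) := by
      intro v
      rw [hx1 v, hπα, hsnα]
      simp
    have hys : ∀ v : Lm C6 K, y v = xe C6 (E C6 (-α)) t (xe C6 (E C6 (-α')) (τ t) v) := by
      intro v
      rw [hy1 v, hπnα, hsnn]
      simp
    have hN1 := fun u : K => (f_ACT 6 C6 K (-α) u hnα).1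
    have hN2 := fun u : K => (f_ACT 6 C6 K (-α) u hnα).2.1
    have hM1 := fun u : K => (f_ACT 6 C6 K (-α') u hnα').1
    have hM2 := fun u : K => (f_ACT 6 C6 K (-α') u hnα').2.1
    rw [hαdef] at hx1
    have hXx : XI τ i s x := Or.inr ⟨hpi, hx1⟩
    rcases hm with hm | hm | hm
    · -- `m = -1`
      have hm' : ip C6 α' β = -1 := by rw [a1, hm]
      obtain ⟨hL, hxE⟩ := a6 hm
      have hβ2 := hβ.1
      have rab : ip C6 (α + β) (α + β) = 2 := (add_root_iff hi hβ2).2 hm
      have rab' : ip C6 (α' + β) (α' + β) = 2 := (add_root_iff hi' hβ2).2 hm'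
      have g1 : (sg C6 α (α' + β) : K) = e * a := by
        rw [sg_add_right, Int.cast_mul, ← he, ← ha]
      have y0 : y (E C6 β) = (E C6 β : Lm C6 K) := b5 (by rw [hm]; norm_num)
      have y1 : y (E C6 (α + β)) = (E C6 (α + β) - (t * a) • E C6 β : Lm C6 K) := by
        rw [hys, hM1 (τ t) (α + β) rab (by rw [ip_neg_left, ip_add_right, hort', hm']; norm_num),
          hN2 t (α + β) rab (by rw [ip_neg_left, ip_add_right, hi, hm]; norm_num), sg_neg_left, sg_add_right, Int.cast_mul,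
          hself, ← ha]
        have e1 : -α + (α + β) = β := by abel
        rw [e1]
        module
      have y2 : y (E C6 (α' + β)) = (E C6 (α' + β) - (τ t * a') • E C6 β : Lm C6 K) := by
        rw [hys, hM2 (τ t) (α' + β) rab' (by rw [ip_neg_left, ip_add_right, hi', hm']; norm_num), sg_neg_left, sg_add_right,
          Int.cast_mul, hself', ← ha']
        have e1 : -α' + (α' + β) = β := by abel
        rw [e1, RKS_add, RKS_smul, hN1 t (α' + β) rab' (by rw [ip_neg_left, ip_add_right, hort, hm]; norm_num),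
          hN1 t β hβ2 (by rw [ip_neg_left, hm]; norm_num)]
        module
      have y3 : y (E C6 (α + α' + β)) = (E C6 (α + α' + β) - (t * (e * a)) • E C6 (α' + β) - (τ t * (e * a')) • E C6 (α + β) +
          (t * τ t * (e * a * a')) • E C6 β : Lm C6 K) := by
        have q1 : ip C6 (-α') (α + α' + β) = -1 := by
          rw [ip_neg_left, ip_add_right, ip_add_right, hort', hi', hm']; norm_num
        have q2 : ip C6 (-α) (α + α' + β) = -1 := by
          rw [ip_neg_left, ip_add_right, ip_add_right, hort, hi, hm]; norm_num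
        have q3 : ip C6 (-α) (α + β) = -1 := by
          rw [ip_neg_left, ip_add_right, hi, hm]; norm_num
        have e1 : -α' + (α + α' + β) = α + β := by abel
        have e2 : -α + (α + α' + β) = α' + β := by abel
        have e3 : -α + (α + β) = β := by abel
        have w1 : (sg C6 (-α') (α + α' + β) : K) = -(e * a') := by
          rw [sg_neg_left, sg_add_right, sg_add_right, Int.cast_mul, Int.cast_mul, he', hself', ← ha']; ring
        have w2 : (sg C6 (-α) (α + α' + β) : K) = -(e * a) := by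
          rw [sg_neg_left, sg_add_right, sg_add_right, Int.cast_mul, Int.cast_mul, hself, ← he, ← ha]; ring
        have w3 : (sg C6 (-α) (α + β) : K) = -a := by
          rw [sg_neg_left, sg_add_right, Int.cast_mul, hself, ← ha]; ring
        rw [hys, hM2 (τ t) _ hL.1 q1, RKS_add, RKS_smul, hN2 t _ hL.1 q2, e1, hN2 t _ rab q3, e2, e3, w1, w2, w3]
        module
      have hyx : y (x (E C6 β)) = (((1 - s * t) * (1 - τ s * τ t)) • E C6 β + (s * a * (1 - τ s * τ t)) • E C6 (α + β) +
          (τ s * a' * (1 - s * t)) • E C6 (α' + β) + (s * τ s * (e * a * a')) • E C6 (α + α' + β) : Lm C6 K) := by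
        rw [hxE, map_add, map_add, map_add, map_smul, map_smul, map_smul, y0, y1, y2, y3, g1, ← ha, ← ha']
        have ee : e * e = 1 := sE
        have aa : a * a = 1 := sA
        have aa' : a' * a' = 1 := sA'
        simp only [Int.cast_one, one_mul, smul_add, smul_sub, smul_smul]
        have k1 : s * τ s * a' * (e * a) * (t * (e * a)) = s * τ s * t * a' := by
          linear_combination (s * τ s * t * a' * (a * a)) * ee + (s * τ s * t * a') * aa
        have k2 : s * τ s * a' * (e * a) * (τ t * (e * a')) = s * τ s * τ t * a := by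
          linear_combination (s * τ s * τ t * a * (a' * a')) * ee + (s * τ s * τ t * a) * aa'
        have k3 : s * τ s * a' * (e * a) * (t * τ t * (e * a * a')) = s * t * (τ s * τ t) := by
          linear_combination (s * t * (τ s * τ t) * (a * a) * (a' * a')) * ee + (s * t * (τ s * τ t) * (a' * a')) * aa +
            (s * t * (τ s * τ t)) * aa'
        have k4 : s * a * (t * a) = s * t := by
          linear_combination (s * t) * aa
        have k5 : τ s * a' * (τ t * a') = τ s * τ t := by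
          linear_combination (τ s * τ t) * aa'
        rw [k1, k2, k3, k4, k5]
        module
      by_cases hA : 1 - s * t = 0
      · have hA' : 1 - τ s * τ t = 0 := by
          have := congrArg τ hA
          rw [map_sub, map_mul, map_one, map_zero] at this
          exact this
        have hs0 : s ≠ 0 := by
          rintro rfl
          simp at hA
        have hτs0 : τ s ≠ 0 := by
          intro h
          exact hs0 (by rw [← hτ s, h, map_zero])
        have hLab : LR (α + α' + β) := hL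
        refine ⟨α + α' + β, hLab, s * τ s * (e * a * a'), ?_, ?_, s, x, hXx, ?_⟩
        · rw [map_mul, map_mul, map_mul, map_mul, hτ, ta, ta', te]; ring
        · exact mul_ne_zero (mul_ne_zero hs0 hτs0) (mul_ne_zero (mul_ne_zero he0 ha0) ha'0)
        · have hfix : x (E C6 (α + α' + β)) = (E C6 (α + α' + β) : Lm C6 K) := by
            obtain ⟨-, -, -, c4⟩ := hACS K τ hτ α (α + α' + β) hS hLab
            refine (c4 s x (by rw [hαdef]; exact hx1)).1 ?_
            rw [ip_add_right, ip_add_right, hi, hort, hm]; norm_num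
          rw [hyx, hfix, hA, hA']
          simp
      · have hA' : 1 - τ s * τ t ≠ 0 := by
          intro h
          apply hA
          have := congrArg τ h
          rw [map_sub, map_mul, map_one, map_zero, hτ, hτ] at this
          exact this
        obtain ⟨x', hx'⟩ := RKS_exS τ hi (by rw [hπα]; exact hi') (s / (1 - s * t))
        refine ⟨β, hβ, (1 - s * t) * (1 - τ s * τ t), ?_, mul_ne_zero hA hA', s / (1 - s * t), x', Or.inr ⟨hpi, ?_⟩, ?_⟩
        · rw [map_mul, map_sub, map_sub, map_mul, map_mul, hτ, hτ, map_one]; ring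
        · rw [← hαdef]; exact hx'
        · obtain ⟨-, -, -, c4⟩ := hACS K τ hτ α β hS hβ
          obtain ⟨-, c6⟩ := c4 _ x' hx'
          obtain ⟨-, c7⟩ := c6 hm
          rw [hyx, c7, hπα, hsnα, g1, ← ha, ← ha']
          have tq : τ (s / (1 - s * t)) = τ s / (1 - τ s * τ t) := by
            rw [map_div₀, map_sub, map_mul, map_one]
          rw [tq]
          simp only [Int.cast_one, one_mul, smul_add, smul_smul]
          have k1 : (1 - s * t) * (1 - τ s * τ t) * (s / (1 - s * t) * a) = s * a * (1 - τ s * τ t) := by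
            field_simp
          have k2 : (1 - s * t) * (1 - τ s * τ t) * (τ s / (1 - τ s * τ t) * a') = τ s * a' * (1 - s * t) := by
            field_simp
          have k3 : (1 - s * t) * (1 - τ s * τ t) * (s / (1 - s * t) * (τ s / (1 - τ s * τ t)) * a' * (e * a)) =
              s * τ s * (e * a * a') := by
            field_simp
          rw [k1, k2, k3]
    · -- `m = 0`
      refine ⟨β, hβ, 1, map_one τ, one_ne_zero, s, x, hXx, ?_⟩
      rw [a5 (by rw [hm]), b5 (by rw [hm]; norm_num), one_smul]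
    · -- `m = 1`
      have hxβ : x (E C6 β) = (E C6 β : Lm C6 K) := a5 (by rw [hm]; norm_num)
      have hm' : ip C6 α' β = 1 := by rw [a1, hm]
      obtain ⟨hL, hyE⟩ := b6 (by rw [hm])
      by_cases ht0 : t = 0
      · refine ⟨β, hβ, 1, map_one τ, one_ne_zero, s, x, hXx, ?_⟩
        rw [hxβ, hyE, one_smul, ht0]
        simp
      · have hτt0 : τ t ≠ 0 := by
          intro h
          exact ht0 (by rw [← hτ t, h, map_zero])
        have hLab : LR (-α + -α' + β) := hL
        have hmm : ip C6 α (-α + -α' + β) = -1 := by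
          rw [ip_add_right, ip_add_right, ip_neg_right, ip_neg_right, hi, hort, hm]; norm_num
        obtain ⟨x', hx'⟩ := RKS_exS τ hi (by rw [hπα]; exact hi') (-t⁻¹)
        refine ⟨-α + -α' + β, hLab, t * τ t * (e * a * a'), ?_, ?_, -t⁻¹, x', Or.inr ⟨hpi, ?_⟩, ?_⟩
        · rw [map_mul, map_mul, map_mul, map_mul, hτ, ta, ta', te]; ring
        · exact mul_ne_zero (mul_ne_zero ht0 hτt0) (mul_ne_zero (mul_ne_zero he0 ha0) ha'0)
        · rw [← hαdef]; exact hx'
        · obtain ⟨-, -, -, c4⟩ := hACS K τ hτ α (-α + -α' + β) hS hLab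
          obtain ⟨-, c6⟩ := c4 _ x' hx'
          obtain ⟨-, c7⟩ := c6 hmm
          have tq : τ (-t⁻¹) = -(τ t)⁻¹ := by
            rw [map_neg, map_inv₀]
          have e1 : α + (-α + -α' + β) = -α' + β := by abel
          have e2 : α' + (-α + -α' + β) = -α + β := by abel
          have e3 : α + α' + (-α + -α' + β) = β := by abel
          have w1 : (sg C6 α (-α + -α' + β) : K) = -(e * a) := by
            rw [sg_add_right, sg_add_right, sg_neg_right, sg_neg_right, Int.cast_mul, Int.cast_mul, hself, ← he, ← ha]; ring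
          have w2 : (sg C6 α' (-α + -α' + β) : K) = -(e * a') := by
            rw [sg_add_right, sg_add_right, sg_neg_right, sg_neg_right, Int.cast_mul, Int.cast_mul, hself', he', ← ha']; ring
          have w3 : (sg C6 α (-α + β) : K) = -a := by
            rw [sg_add_right, sg_neg_right, Int.cast_mul, hself, ← ha]; ring
          have w4 : (sg C6 (-α) β : K) = a := by rw [sg_neg_left, ← ha]
          have w5 : (sg C6 (-α') β : K) = a' := by rw [sg_neg_left, ← ha']
          have w6 : (sg C6 (-α) (-α' + β) : K) = e * a := by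
            rw [sg_neg_left, sg_add_right, sg_neg_right, Int.cast_mul, ← he, ← ha]
          rw [hxβ, hyE, c7, hπα, hsnα, tq, e1, e2, e3, w1, w2, w3, w4, w5, w6]
          have ee : e * e = 1 := sE
          have aa : a * a = 1 := sA
          have aa' : a' * a' = 1 := sA'
          simp only [Int.cast_one, one_mul, smul_add, smul_smul]
          have k1 : t * τ t * (e * a * a') * (-t⁻¹ * -(e * a)) = τ t * a' := by
            have : t * τ t * (e * a * a') * (-t⁻¹ * -(e * a)) = (t * t⁻¹) * (τ t * a' * ((e * e) * (a * a))) := by ring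
            rw [this, ee, aa, mul_inv_cancel₀ ht0]; ring
          have k2 : t * τ t * (e * a * a') * (-(τ t)⁻¹ * -(e * a')) = t * a := by
            have : t * τ t * (e * a * a') * (-(τ t)⁻¹ * -(e * a')) = (τ t * (τ t)⁻¹) * (t * a * ((e * e) * (a' * a'))) := by ring
            rw [this, ee, aa', mul_inv_cancel₀ hτt0]; ring
          have k3 : t * τ t * (e * a * a') * (-t⁻¹ * -(τ t)⁻¹ * -(e * a') * -a) = 1 := by
            have : t * τ t * (e * a * a') * (-t⁻¹ * -(τ t)⁻¹ * -(e * a') * -a) =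
                (t * t⁻¹) * (τ t * (τ t)⁻¹) * ((e * e) * (a * a) * (a' * a')) := by ring
            rw [this, ee, aa, aa', mul_inv_cancel₀ ht0, mul_inv_cancel₀ hτt0]; ring
          rw [k1, k2, k3]
          module

end Pool.Agent.EXT
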