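import Pool.Agent.helper17.EXT.Spec

/-!
# Project EXT (MP_561ff4_al), row `ft:UDC`: unipotent elements of `GS`
-/

set_option autoImplicit false

open Finset

namespace Pool.Agent.EXT

open Pool.Agent.EXC

variable {K : Type} [Field K]

theorem UDC_xe_zero (a v : Lm C6 K) : xe C6 a 0 v = v := by
  unfold xe
  simp

theorem UDC_eq_one {a : Lm C6 K} {g : Lm C6 K ≃ₗ[K] Lm C6 K} (h : IsX C6 a 0 g) : g = 1 := by
  ext1 v
  rw [h v, UDC_xe_zero]
  rfl

theorem UDC_sub (a : Lm C6 K) (t : K) (v w : Lm C6 K) : xe C6 a t (v - w) = xe C6 a t v - xe C6 a t w := by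
  unfold xe
  rw [br_sub_right, fm_sub_right, mul_sub, sub_smul, smul_sub]
  abel

theorem UDC_add (a : Lm C6 K) (t : K) (v w : Lm C6 K) : xe C6 a t (v + w) = xe C6 a t v + xe C6 a t w := by
  unfold xe
  rw [br_add_right, fm_add_right, mul_add, add_smul, smul_add]
  abel

theorem UDC_smul (a : Lm C6 K) (t c : K) (v : Lm C6 K) : xe C6 a t (c • v) = c • xe C6 a t v := by
  unfold xe
  rw [br_smul_right, fm_smul_right, smul_add, smul_add, smul_smul, smul_smul, smul_smul]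
  congr 2
  · rw [mul_comm]
  · ring

/-- the coefficients at the negative roots other than `-α_j` vanish -/
def UDC_P (j : Fin 6) (v : Lm C6 K) : Prop := ∀ γ, ip C6 γ γ = 2 → Pos (-γ) → γ ≠ -sr j → cf v γ = 0

theorem UDC_pos_ne {γ : Fin 6 → ℤ} (h : ip C6 γ γ = 2) (h1 : Pos γ) : ¬ Pos (-γ) := by
  intro h2
  have h3 : γ = 0 := by
    funext i
    have e1 := h1 i
    have e2 := h2 i
    rw [Pi.neg_apply] at e2
    rw [Pi.zero_apply]
    omega
  rw [h3, ip_zero_left] at h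
  norm_num at h

theorem UDC_sum_pos {γ : Fin 6 → ℤ} (h : ip C6 γ γ = 2) (h1 : Pos γ) : 1 ≤ ∑ i, γ i := by
  by_contra h2
  have h3 : ∑ i, γ i = 0 := by
    have h4 : 0 ≤ ∑ i, γ i := Finset.sum_nonneg fun i _ => h1 i
    omega
  have h5 : γ = 0 := by
    funext i
    rw [Finset.sum_eq_zero_iff_of_nonneg (fun i _ => h1 i)] at h3
    exact h3 i (Finset.mem_univ i)
  rw [h5, ip_zero_left] at h
  norm_num at h

theorem UDC_gen {j : Fin 6} {δ : Fin 6 → ℤ} (hδ : ip C6 δ δ = 2) (hp : Pos δ) (hne : δ ≠ sr j) (c : K) {v : Lm C6 K}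
    (hv : UDC_P j v) : UDC_P j (xe C6 (E C6 δ) c v) ∧ (xe C6 (E C6 δ) c v).1 = v.1 := by
  have h0 : cf v (-δ) = 0 := by
    refine hv (-δ) (neg_root C6 hδ) (by rw [neg_neg]; exact hp) ?_
    intro h
    exact hne (neg_injective h)
  obtain ⟨b1, b2⟩ := br_E (F := K) C6 hδ v
  have h1 : xe C6 (E C6 δ) c v = v + c • br C6 (E C6 δ) v := by
    unfold xe
    rw [fm_E C6 hδ, h0, mul_zero, zero_smul, add_zero]
  refine ⟨?_, ?_⟩
  · intro γ hγ hn hγj
    have h2 : γ ≠ δ := by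
      rintro rfl
      exact UDC_pos_ne hδ hp hn
    rw [h1, cf_add, cf_smul, b2 γ hγ, if_neg h2, hv γ hγ hn hγj]
    have h3 : cf v (γ - δ) = 0 := by
      by_cases h4 : ip C6 (γ - δ) (γ - δ) = 2
      · refine hv _ h4 ?_ ?_
        · intro i
          have e1 := hn i
          have e2 := hp i
          rw [Pi.neg_apply] at e1 ⊢
          rw [Pi.sub_apply]
          omega
        · intro h5
          have e1 := UDC_sum_pos hδ hp
          have e2 := UDC_sum_pos (neg_root C6 hγ) hn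
          have e3 : ∑ i, (γ - δ) i = ∑ i, (-sr j : Fin 6 → ℤ) i := by rw [h5]
          have e4 : ∑ i, (-sr j : Fin 6 → ℤ) i = -1 := by
            simp [sr, Pi.single_apply]
          rw [e4] at e3
          simp only [Pi.sub_apply, Pi.neg_apply, Finset.sum_sub_distrib, Finset.sum_neg_distrib] at e2 e3
          omega
      · exact cf_eq_zero C6 v h4
    rw [h3]
    simp
  · rw [h1, Prod.fst_add, Prod.smul_fst, b1, h0]
    simp

theorem UDC_grp {j i : Fin 6} (hj : j = i ∨ j = pn i) {u : Lm C6 K ≃ₗ[K] Lm C6 K} (hu : u ∈ UJ K i) :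
    ∀ v : Lm C6 K, UDC_P j v → UDC_P j (u v) ∧ (u v).1 = v.1 := by
  have hE := (f_EXF 6 C6 K (f_NBR 6 C6 1 _ _ f_DE6.2).1).2.1
  have hEx := (f_EXF 6 C6 K (f_NBR 6 C6 1 _ _ f_DE6.2).1).2.2.1
  have key : (∀ v : Lm C6 K, UDC_P j v → UDC_P j (u v) ∧ (u v).1 = v.1) ∧
      ∀ v : Lm C6 K, UDC_P j v → UDC_P j (u⁻¹ v) ∧ (u⁻¹ v).1 = v.1 := by
    unfold UJ at hu
    refine Subgroup.closure_induction (p := fun u _ => (∀ v : Lm C6 K, UDC_P j v → UDC_P j (u v) ∧ (u v).1 = v.1) ∧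
      ∀ v : Lm C6 K, UDC_P j v → UDC_P j (u⁻¹ v) ∧ (u⁻¹ v).1 = v.1) ?_ ?_ ?_ ?_ hu
    · rintro x ⟨δ, hδ, hp, hne, hne', c, hx⟩
      have hn : δ ≠ sr j := by
        rcases hj with rfl | rfl
        · exact hne
        · exact hne'
      refine ⟨fun v hv => ?_, fun v hv => ?_⟩
      · rw [hx v]
        exact UDC_gen hδ hp hn c hv
      · obtain ⟨z, -, hz⟩ := (hEx _ (hE δ hδ)).2.2.2.2.1 (-c)
        have h1 : IsX C6 (E C6 δ) (c + -c) (x * z) :=
          (hEx _ (hE δ hδ)).2.2.2.2.2.2.2.2 c (-c) x z hx hz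
        rw [add_neg_cancel] at h1
        have h2 : z = x⁻¹ := eq_inv_of_mul_eq_one_right (UDC_eq_one h1)
        rw [← h2, hz v]
        exact UDC_gen hδ hp hn (-c) hv
    · refine ⟨fun v hv => ⟨hv, rfl⟩, fun v hv => ?_⟩
      rw [inv_one]
      exact ⟨hv, rfl⟩
    · rintro x y - - ⟨hx, hx'⟩ ⟨hy, hy'⟩
      refine ⟨fun v hv => ?_, fun v hv => ?_⟩
      · obtain ⟨a1, a2⟩ := hy v hv
        obtain ⟨b1, b2⟩ := hx _ a1
        exact ⟨b1, b2.trans a2⟩
      · rw [mul_inv_rev]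
        obtain ⟨a1, a2⟩ := hx' v hv
        obtain ⟨b1, b2⟩ := hy' _ a1
        exact ⟨b1, b2.trans a2⟩
    · rintro x - ⟨hx, hx'⟩
      exact ⟨hx', by rw [inv_inv]; exact hx⟩
  exact key.1

theorem UDC (hRTF : RTF_stmt) (hSIG : SIG_stmt) (hSGR : SGR_stmt) (hUPR : UPR_stmt) : UDC_stmt := by
  intro K _ τ hτ i
  obtain ⟨r1, r2, r3, r4, r5, r6, r7, r8, r9, r10, r11, r12, r13, -, -⟩ := hRTF
  obtain ⟨-, -, -, -, -, g6, -, -⟩ := hSIG K τ hτ
  obtain ⟨-, -, -, -, s5, s6⟩ := hSGR K τ hτ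
  obtain ⟨u1, u2, u3⟩ := hUPR K i
  have hNB := (f_NBR 6 C6 1 _ _ f_DE6.2).1
  obtain ⟨-, hE, hEx, -⟩ := f_EXF 6 C6 K hNB
  have hi : ip C6 (sr i) (sr i) = 2 := ip_sr_self C6 i
  have hi' : ip C6 (sr (pn i)) (sr (pn i)) = 2 := ip_sr_self C6 (pn i)
  have hpp : pn (pn i) = i := by
    fin_cases i <;> rfl
  have hposi : ∀ j : Fin 6, Pos (sr j : Fin 6 → ℤ) := by
    intro j k
    unfold sr
    by_cases h : k = j
    · rw [h]; simp
    · simp [h]
  have hex : ∀ (α : Fin 6 → ℤ), ip C6 α α = 2 → ∀ t : K, ∃ g : Lm C6 K ≃ₗ[K] Lm C6 K, IsX C6 (E C6 α) t g := by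
    intro α hα t
    obtain ⟨z, -, hz⟩ := (hEx _ (hE α hα)).2.2.2.2.1 t
    exact ⟨z, hz⟩
  refine ⟨?_, ?_⟩
  · intro u huG huU
    obtain ⟨u', hu', s, s', g, g', hg, hg', h0, hu⟩ := u3 u huU
    have hcom := (s6 u huG).2.2
    -- the part of degree zero of `u E(-α_i)`
    have hA1 := fun (α : Fin 6 → ℤ) (hα : ip C6 α α = 2) (t : K) => (f_ACT 6 C6 K α t hα)
    have hPn : ∀ j : Fin 6, ∀ c : K, UDC_P j (E C6 (-sr j) - c • ht C6 (sr j) + c ^ 2 • E C6 (sr j) : Lm C6 K) := by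
      intro j c γ hγ hn hne
      have hj : ip C6 (sr j) (sr j) = 2 := ip_sr_self C6 j
      have h2 : γ ≠ sr j := by
        rintro rfl
        exact UDC_pos_ne hγ (hposi j) hn
      rw [cf_add, cf_sub, cf_smul, cf_smul, cf_ht, cf_E C6 hj, cf_E C6 (neg_root C6 hj), if_neg hne, if_neg h2]
      ring
    have hval : ∀ j : Fin 6, ∀ c : K, ∀ k : Fin 6,
        (E C6 (-sr j) - c • ht C6 (sr j) + c ^ 2 • E C6 (sr j) : Lm C6 K).1 k = -(c * ((sr j k : ℤ) : K)) := by
      intro j c k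
      rw [Prod.fst_add, Prod.fst_sub, Prod.smul_fst, Prod.smul_fst, E_fst, E_fst, ht_fst]
      simp
    have hsrr : ∀ j : Fin 6, ((sr j j : ℤ) : K) = 1 := by
      intro j
      simp [sr]
    have hsnn : ∀ j : Fin 6, sn (-sr j) = 1 := by
      intro j
      rw [r9, r10]
    have hσ : ∀ j : Fin 6, si τ (E C6 (-sr j) : Lm C6 K) = E C6 (-sr (pn j)) := by
      intro j
      rw [g6 _ (neg_root C6 (ip_sr_self C6 j)), hsnn, r4, r5]
      simp
    by_cases hpi : pn i = i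
    · have hs' : s' = 0 := h0 hpi
      subst hs'
      have hg1 : g' = 1 := UDC_eq_one hg'
      subst hg1
      rw [mul_one] at hu
      have e1 : u (E C6 (-sr i)) = u' (E C6 (-sr i) - s • ht C6 (sr i) + s ^ 2 • E C6 (sr i) : Lm C6 K) := by
        have e2 : u (E C6 (-sr i)) = u' (g (E C6 (-sr i))) := by rw [hu]; rfl
        rw [e2, hg, (hA1 (sr i) hi s).2.2.1]
      have e3 : (u (E C6 (-sr i))).1 i = -s := by
        rw [e1, (UDC_grp (Or.inl rfl) hu' _ (hPn i s)).2, hval, hsrr, mul_one]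
      have e4 := hcom (E C6 (-sr i))
      rw [hσ, hpi] at e4
      have e5 : (si τ (u (E C6 (-sr i)))).1 i = τ ((u (E C6 (-sr i))).1 (pn i)) := rfl
      rw [hpi, e3, e4, e3, map_neg] at e5
      have hts : τ s = s := (neg_injective e5).symm
      have hX : XI τ i s g := Or.inl ⟨hpi, hts, hg⟩
      have hgG : g ∈ GS τ := s5 i s g (Or.inl hX)
      refine ⟨u', ?_, hu', s, g, hgG, ?_, hX, hu⟩
      · have e6 : u' = u * g⁻¹ := by rw [hu, mul_inv_cancel_right]
        rw [e6]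
        exact mul_mem huG (inv_mem hgG)
      · exact Subgroup.subset_closure ⟨sr i, hi, hposi i, s, hg⟩
    · have hort : ip C6 (sr i) (sr (pn i)) = 0 := by
        have hS : SR (sr i) := by
          refine ⟨hi, ?_⟩
          rw [r5]
          intro h
          have h1 := congrFun h i
          simp only [sr, Pi.single_apply] at h1
          rw [if_neg (fun e => hpi e.symm)] at h1
          simp at h1
        have := r13 _ hS
        rw [r5] at this
        exact this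
      have hort' : ip C6 (sr (pn i)) (sr i) = 0 := by rw [ip_comm]; exact hort
      have e1 : u (E C6 (-sr i)) = u' (E C6 (-sr i) - s • ht C6 (sr i) + s ^ 2 • E C6 (sr i) : Lm C6 K) := by
        have e2 : u (E C6 (-sr i)) = u' (g (g' (E C6 (-sr i)))) := by rw [hu]; rfl
        rw [e2, hg', (hA1 (sr (pn i)) hi' s').1 _ (neg_root C6 hi) (by rw [ip_neg_right, hort']; norm_num), hg,
          (hA1 (sr i) hi s).2.2.1]
      have e1' : u (E C6 (-sr (pn i))) =
          u' (E C6 (-sr (pn i)) - s' • ht C6 (sr (pn i)) + s' ^ 2 • E C6 (sr (pn i)) : Lm C6 K) := by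
        have e2 : u (E C6 (-sr (pn i))) = u' (g (g' (E C6 (-sr (pn i))))) := by rw [hu]; rfl
        rw [e2, hg', (hA1 (sr (pn i)) hi' s').2.2.1, hg, UDC_add, UDC_sub, UDC_smul, UDC_smul,
          (hA1 (sr i) hi s).1 _ (neg_root C6 hi') (by rw [ip_neg_right, hort]; norm_num),
          (hA1 (sr i) hi s).1 _ hi' (by rw [hort]), (hA1 (sr i) hi s).2.2.2.2, hort]
        simp
      have e3 : (u (E C6 (-sr i))).1 i = -s := by
        rw [e1, (UDC_grp (Or.inl rfl) hu' _ (hPn i s)).2, hval, hsrr, mul_one]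
      have e3' : (u (E C6 (-sr (pn i)))).1 (pn i) = -s' := by
        rw [e1', (UDC_grp (Or.inr rfl) hu' _ (hPn (pn i) s')).2, hval, hsrr, mul_one]
      have e4 := hcom (E C6 (-sr i))
      rw [hσ] at e4
      have e5 : (si τ (u (E C6 (-sr i)))).1 (pn i) = τ ((u (E C6 (-sr i))).1 (pn (pn i))) := rfl
      rw [hpp, e3, e4, e3', map_neg] at e5
      have hts : s' = τ s := neg_injective e5
      have hX : XI τ i s (g * g') := by
        refine Or.inr ⟨hpi, fun v => ?_⟩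
        have e6 : (g * g') v = g (g' v) := rfl
        rw [e6, hg, hg', r5, r10, hts]
        simp
      have hgG : g * g' ∈ GS τ := s5 i s _ (Or.inl hX)
      refine ⟨u', ?_, hu', s, g * g', hgG, ?_, hX, hu⟩
      · have e6 : u' = u * (g * g')⁻¹ := by rw [hu, mul_inv_cancel_right]
        rw [e6]
        exact mul_mem huG (inv_mem hgG)
      · exact mul_mem (Subgroup.subset_closure ⟨sr i, hi, hposi i, s, hg⟩)
          (Subgroup.subset_closure ⟨sr (pn i), hi', hposi _, s', hg'⟩)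
  · intro u hu t y hy
    rcases hy with (⟨hpi, -, hy⟩ | ⟨hpi, hy⟩) | (⟨hpi, -, hy⟩ | ⟨hpi, hy⟩)
    · exact u2 u hu i (Or.inl rfl) t y (Or.inl hy)
    · obtain ⟨g, hg⟩ := hex (sr i) hi t
      obtain ⟨g', hg'⟩ := hex (sr (pn i)) hi' ((sn (sr i) : K) * τ t)
      have e1 : y = g * g' := by
        ext1 v
        have e2 : (g * g') v = g (g' v) := rfl
        rw [hy v, e2, hg, hg', r5]
      have e3 : y * u * y⁻¹ = g * (g' * u * g'⁻¹) * g⁻¹ := by
        rw [e1]
        group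
      rw [e3]
      exact u2 _ (u2 u hu (pn i) (Or.inr rfl) _ g' (Or.inl hg')) i (Or.inl rfl) t g (Or.inl hg)
    · exact u2 u hu i (Or.inl rfl) t y (Or.inr hy)
    · obtain ⟨g, hg⟩ := hex (-sr i) (neg_root C6 hi) t
      obtain ⟨g', hg'⟩ := hex (-sr (pn i)) (neg_root C6 hi') ((sn (-sr i) : K) * τ t)
      have e1 : y = g * g' := by
        ext1 v
        have e2 : (g * g') v = g (g' v) := rfl
        rw [hy v, e2, hg, hg', r4, r5]
      have e3 : y * u * y⁻¹ = g * (g' * u * g'⁻¹) * g⁻¹ := by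
        rw [e1]
        group
      rw [e3]
      exact u2 _ (u2 u hu (pn i) (Or.inr rfl) _ g' (Or.inr hg')) i (Or.inl rfl) t g (Or.inr hg)

end Pool.Agent.EXT
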